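import Mathlib

set_option autoImplicit false

namespace Pool.Agent.H101Z.Pre

open Polynomial Finset Nat

/-- odd double factorial -/
def LL : ℕ → ℕ
  | 0 => 1
  | a + 1 => (2 * a + 3) * LL a

theorem LL_pos (a : ℕ) : 0 < LL a := by
  induction a with
  | zero => simp [LL]
  | succ a ih => simp [LL, ih]

theorem LL_le (k a : ℕ) (h : a < k) : LL a ≤ 2 ^ (k * a) := by
  induction a with
  | zero => simp [LL]
  | succ a ih =>
    have h1 : 2 * a + 3 ≤ 2 ^ k := by
      have h2 : a + 1 < 2 ^ (a + 1) := Nat.lt_two_pow_self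
      have h3 : 2 ^ (a + 2) ≤ 2 ^ k := Nat.pow_le_pow_right (by omega) (by omega)
      rw [pow_succ 2 (a + 1)] at h3
      omega
    rw [LL, Nat.mul_succ, pow_add, mul_comm]
    exact Nat.mul_le_mul (ih (by omega)) h1

theorem cb_succ (i : ℕ) : ((i : ℤ) + 1) * (centralBinom (i + 1) : ℤ) =
    2 * (2 * i + 1) * centralBinom i := by
  exact_mod_cast succ_mul_centralBinom_succ i

theorem dvd_LL (a i : ℕ) : (2 * (i : ℤ) - 2 * a - 1) ∣ (LL a : ℤ) * centralBinom i := by
  induction a generalizing i with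
  | zero =>
    rcases i with _ | i
    · simp
    · refine ⟨4 * centralBinom i - centralBinom (i + 1), ?_⟩
      have := cb_succ i
      simp only [LL]
      push_cast
      linear_combination 2 * this
  | succ a ih =>
    rcases i with _ | i
    · refine ⟨-(LL a : ℤ), ?_⟩
      simp only [LL, centralBinom_zero]
      push_cast
      ring
    · obtain ⟨c, hc⟩ := ih i
      refine ⟨4 * (2 * i + 1) * c - LL a * centralBinom (i + 1), ?_⟩
      have := cb_succ i
      simp only [LL]
      push_cast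
      linear_combination 2 * (LL a : ℤ) * this + 4 * (2 * i + 1) * hc

theorem ident0 (i : ℕ) : (centralBinom i : ℚ) * ∏ j ∈ range i, ((i : ℚ) - j) =
    4 ^ i * ∏ l ∈ range i, ((i : ℚ) - l - 1 / 2) := by
  induction i with
  | zero => simp
  | succ i ih =>
    have h : ((i : ℚ) + 1) * (centralBinom (i + 1) : ℚ) = 2 * (2 * i + 1) * centralBinom i := by
      exact_mod_cast succ_mul_centralBinom_succ i
    rw [prod_range_succ', prod_range_succ']
    push_cast
    simp only [add_sub_add_right_eq_sub]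
    linear_combination (∏ j ∈ range i, ((i : ℚ) - j)) * h + 2 * (2 * i + 1) * ih

theorem ident1 (i r : ℕ) : (centralBinom i : ℚ) * centralBinom r *
    ∏ j ∈ (range (i + r + 1)).erase i, ((i : ℚ) - j) =
    4 ^ (i + r) * ∏ l ∈ range (i + r), ((i : ℚ) - l - 1 / 2) := by
  induction r with
  | zero =>
    rw [add_zero, range_add_one, erase_insert notMem_range_self, ← ident0]
    simp
  | succ r ih =>
    have h : ((r : ℚ) + 1) * (centralBinom (r + 1) : ℚ) = 2 * (2 * r + 1) * centralBinom r := by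
      exact_mod_cast succ_mul_centralBinom_succ r
    rw [← add_assoc, range_add_one (n := i + r + 1), erase_insert_of_ne (by omega),
      prod_insert (fun h => notMem_range_self (mem_of_mem_erase h)), prod_range_succ]
    push_cast
    linear_combination (-(centralBinom i : ℚ) * ∏ j ∈ (range (i + r + 1)).erase i, ((i : ℚ) - j)) * h
      - 2 * (2 * r + 1) * ih

theorem numeric (k : ℕ) : (k + 1) * (k * k + 4 * k + 9) + 2 * k + 6 ≤ 4 ^ (k + 2) := by
  induction k with
  | zero => norm_num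
  | succ k ih =>
    rw [show k + 1 + 2 = k + 2 + 1 by ring, pow_succ]
    nlinarith [Nat.zero_le k, Nat.zero_le (k * k), Nat.zero_le (k * k * k)]

/-- the integral weights -/
noncomputable def wt (n a i : ℕ) : ℤ :=
  match a with
  | 0 => centralBinom i * centralBinom (n - i)
  | a + 1 => (dvd_LL a i).choose * centralBinom (n - i)

theorem wt_spec (n a i : ℕ) : (2 * (i : ℤ) - 2 * a - 1) * wt n (a + 1) i =
    LL a * (centralBinom i * centralBinom (n - i)) := by
  have := (dvd_LL a i).choose_spec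
  simp only [wt]
  linear_combination (-(centralBinom (n - i) : ℤ)) * this

theorem wt_le (n k a i : ℕ) (ha : a < k + 1) (hi : i ≤ n) : |wt n a i| ≤ 2 ^ (k * k) * 4 ^ n := by
  have h1 : (centralBinom i : ℤ) * centralBinom (n - i) ≤ 4 ^ n := by
    have h2 : (4 : ℤ) ^ n = 4 ^ i * 4 ^ (n - i) := by rw [← pow_add]; congr 1; omega
    rw [h2]
    exact mul_le_mul (by exact_mod_cast centralBinom_le_four_pow i)
      (by exact_mod_cast centralBinom_le_four_pow (n - i)) (by positivity) (by positivity)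
  rcases a with _ | a
  · simp only [wt]
    rw [abs_of_nonneg (by positivity)]
    exact h1.trans (le_mul_of_one_le_left (by positivity) (one_le_pow₀ (by norm_num)))
  · have h3 := congrArg abs (wt_spec n a i)
    rw [abs_mul, abs_of_nonneg (a := (LL a : ℤ) * _) (by positivity)] at h3
    have h4 : 1 ≤ |2 * (i : ℤ) - 2 * a - 1| := Int.one_le_abs (by omega)
    have h5 : (LL a : ℤ) ≤ 2 ^ (k * k) := by
      have := (LL_le k a (by omega)).trans (Nat.pow_le_pow_right (by omega)
        (Nat.mul_le_mul_left k (show a ≤ k by omega)))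
      exact_mod_cast this
    calc |wt n (a + 1) i| ≤ |2 * (i : ℤ) - 2 * a - 1| * |wt n (a + 1) i| :=
          le_mul_of_one_le_left (abs_nonneg _) h4
      _ ≤ _ := by rw [h3]; exact mul_le_mul h5 h1 (by positivity) (by positivity)

theorem pigeon (k m : ℕ) (hm : m + 1 = 2 ^ (2 * k + 3)) : ∃ v : ℕ → ℤ,
    (∃ i ≤ 2 * m, v i ≠ 0) ∧ v 0 = 0 ∧ v 1 = 0 ∧ (∀ i, |v i| ≤ m) ∧
    ∀ a < k + 1, ∑ i ∈ range (2 * m + 1), v i * wt (2 * m) a i = 0 := by
  classical
  have hm1 : 7 ≤ m := by
    have : 2 ^ 3 ≤ 2 ^ (2 * k + 3) := Nat.pow_le_pow_right (by omega) (by omega)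
    omega
  set n := 2 * m with hn
  let W : ℕ := (n + 1) * (m * (2 ^ (k * k) * 4 ^ n))
  let ext : (Fin (n - 1) → ℕ) → ℕ → ℤ := fun u i =>
    if h : 2 ≤ i ∧ i ≤ n then u ⟨i - 2, by omega⟩ else 0
  let ph : (Fin (n - 1) → ℕ) → Fin (k + 1) → ℤ := fun u a => ∑ i ∈ range (n + 1), ext u i * wt n a i
  have hext : ∀ u ∈ Fintype.piFinset fun _ : Fin (n - 1) => range (m + 1), ∀ i,
      0 ≤ ext u i ∧ ext u i ≤ m := fun u hu i => by
    simp only [ext]
    split_ifs with h
    · have := mem_range.mp (Fintype.mem_piFinset.mp hu ⟨i - 2, by omega⟩)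
      omega
    · omega
  obtain ⟨u, hu, u', hu', hne, heq⟩ := exists_ne_map_eq_of_card_lt_of_maps_to
    (s := Fintype.piFinset fun _ : Fin (n - 1) => range (m + 1))
    (t := Fintype.piFinset fun _ : Fin (k + 1) => Icc (-(W : ℤ)) W) (f := ph) (by
      simp only [Fintype.card_piFinset, prod_const, card_range, Finset.card_univ, Fintype.card_fin,
        Int.card_Icc]
      have h1 : ((W : ℤ) + 1 - -(W : ℤ)).toNat = 2 * W + 1 := by omega
      have h2 : 2 * W + 1 ≤ 2 ^ (k * k + 4 * k + 9 + 2 * n) := by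
        have h3 : n + 1 ≤ 2 ^ (2 * k + 4) := by rw [pow_succ]; omega
        have h4 : W ≤ 2 ^ (2 * k + 4) * (2 ^ (2 * k + 3) * (2 ^ (k * k) * 4 ^ n)) :=
          Nat.mul_le_mul h3 (Nat.mul_le_mul_right _ (by omega))
        rw [show 4 ^ n = 2 ^ (2 * n) from (pow_mul 2 2 n).symm, ← pow_add, ← pow_add, ← pow_add] at h4
        rw [show k * k + 4 * k + 9 + 2 * n = 2 * k + 4 + (2 * k + 3 + (k * k + 2 * n)) + 2 by ring,
          pow_add _ _ 2]
        have : 0 < 2 ^ (2 * k + 4 + (2 * k + 3 + (k * k + 2 * n))) := by positivity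
        omega
      rw [h1, hm, ← pow_mul]
      refine lt_of_le_of_lt (Nat.pow_le_pow_left h2 _) ?_
      rw [← pow_mul]
      refine Nat.pow_lt_pow_right (by omega) ?_
      have h5 := numeric k
      have h6 : 4 ^ (k + 2) = n + 2 := by
        rw [show 4 = 2 ^ 2 by norm_num, ← pow_mul, show 2 * (k + 2) = 2 * k + 3 + 1 by ring, pow_succ]
        omega
      obtain ⟨r, hr⟩ : ∃ r, n = r + 1 := ⟨n - 1, by omega⟩
      rw [h6, hr] at h5
      rw [hr, Nat.add_sub_cancel]
      nlinarith)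
    (fun u hu => by
      refine mem_coe.mpr (Fintype.mem_piFinset.mpr fun a => mem_Icc.mpr (abs_le.mp ?_))
      refine (abs_sum_le_sum_abs _ _).trans ?_
      refine (sum_le_card_nsmul _ _ ((m : ℤ) * (2 ^ (k * k) * 4 ^ n)) fun i hi => ?_).trans ?_
      · rw [abs_mul, abs_of_nonneg (hext u hu i).1]
        exact mul_le_mul (hext u hu i).2 (wt_le n k a i a.2 (by have := mem_range.mp hi; omega))
          (abs_nonneg _) (by positivity)
      · simp [W])
  refine ⟨fun i => ext u i - ext u' i, ?_, by simp [ext], by simp [ext], fun i => ?_, fun a ha => ?_⟩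
  · obtain ⟨j, hj⟩ := Function.ne_iff.mp hne
    have := j.2
    refine ⟨j + 2, by omega, ?_⟩
    simp only [ext, dif_pos (show 2 ≤ j.1 + 2 ∧ j.1 + 2 ≤ n by omega), Nat.add_sub_cancel]
    intro h
    exact hj (by exact_mod_cast sub_eq_zero.mp h)
  · have h1 := hext u hu i
    have h2 := hext u' hu' i
    show |ext u i - ext u' i| ≤ m
    rw [abs_le]
    constructor <;> omega
  · have := congrFun heq ⟨a, ha⟩
    simp only [ph] at this
    simp only [sub_mul, sum_sub_distrib, this, sub_self]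

theorem exists_map (k m : ℕ) (hm : m + 1 = 2 ^ (2 * k + 3)) :
    ∃ (F : ℚ[X]) (P : Finset ℕ), P ⊆ range (2 * m) ∧ P.card + k ≤ 2 * m ∧ 2 ≤ F.natDegree ∧
      F.natDegree < P.card ∧ (∀ l ∈ P, F.eval ((l : ℚ) + 1 / 2 - m) ≠ 0) ∧
      ∀ i ≤ 2 * m, ∃ j ≤ 2 * m, F.eval ((i : ℚ) - m) =
        ((j : ℚ) - m) * ∏ l ∈ P, ((i : ℚ) - m - ((l : ℚ) + 1 / 2 - m)) := by
  classical
  obtain ⟨v, ⟨i₀, hi₀, hv0⟩, h0, h1, hv, hw⟩ := pigeon k m hm
  have hkm : k + 1 ≤ m := by
    have : 2 * k + 3 < 2 ^ (2 * k + 3) := Nat.lt_two_pow_self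
    omega
  set n := 2 * m with hn
  let x : ℕ → ℚ := fun i => (i : ℚ) - m
  let p : ℕ → ℚ := fun l => (l : ℚ) + 1 / 2 - m
  let ω : ℕ → ℚ := fun i => (centralBinom i : ℚ) * centralBinom (n - i)
  let F : ℚ[X] := ∑ i ∈ range (n + 1),
    C (v i * ω i / 4 ^ n) * ∏ j ∈ (range (n + 1)).erase i, (X - C (x j))
  have hxp : ∀ i l, x i - p l ≠ 0 := fun i l h => by
    have h2 : ((2 * i : ℕ) : ℚ) = (2 * l + 1 : ℕ) := by
      simp only [x, p] at h
      push_cast
      linarith
    have := Nat.cast_injective h2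
    omega
  have hFx : ∀ i ≤ n, F.eval (x i) = v i * ∏ l ∈ range n, (x i - p l) := fun i hi => by
    rw [eval_finsetSum, sum_eq_single i (fun j _ hj => by
      rw [eval_mul, eval_prod, prod_eq_zero (i := i)
        (mem_erase.mpr ⟨hj.symm, mem_range.mpr (by omega)⟩) (by simp), mul_zero])
      (fun h => absurd (mem_range.mpr (by omega)) h), eval_mul, eval_C, eval_prod]
    have h2 := ident1 i (n - i)
    rw [Nat.add_sub_cancel' hi] at h2
    have h3 : ∏ j ∈ (range (n + 1)).erase i, eval (x i) (X - C (x j)) =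
        ∏ j ∈ (range (n + 1)).erase i, ((i : ℚ) - j) := prod_congr rfl fun j _ => by simp [x]
    have h4 : ∏ l ∈ range n, (x i - p l) = ∏ l ∈ range n, ((i : ℚ) - l - 1 / 2) :=
      prod_congr rfl fun l _ => by simp only [x, p]; ring
    rw [h3, h4, div_mul_eq_mul_div, div_eq_iff (by positivity)]
    simp only [ω]
    linear_combination (v i : ℚ) * h2
  have hF0 : F ≠ 0 := fun h => by
    have := hFx i₀ hi₀
    rw [h, eval_zero] at this
    exact mul_ne_zero (Int.cast_ne_zero.mpr hv0) (prod_ne_zero_iff.mpr fun l _ => hxp i₀ l) this.symm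
  have hmon : ∀ i ∈ range (n + 1), (∏ j ∈ (range (n + 1)).erase i, (X - C (x j)) : ℚ[X]).Monic ∧
      (∏ j ∈ (range (n + 1)).erase i, (X - C (x j)) : ℚ[X]).natDegree = n := fun i hi =>
    ⟨monic_prod_of_monic _ _ fun j _ => monic_X_sub_C _, by
      rw [natDegree_finsetProd_X_sub_C_eq_card, card_erase_of_mem hi, card_range]; rfl⟩
  have hFdeg : F.natDegree < n := by
    have h2 : F.natDegree ≤ n := natDegree_sum_le_of_forall_le _ _ fun i hi =>
      (natDegree_C_mul_le _ _).trans (hmon i hi).2.le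
    refine lt_of_le_of_ne h2 fun h => leadingCoeff_ne_zero.mpr hF0 ?_
    rw [leadingCoeff, h, finsetSum_coeff]
    have h3 : ((∑ i ∈ range (n + 1), v i * wt n 0 i : ℤ) : ℚ) = 0 := by
      rw [hw 0 (by omega)]; rfl
    push_cast at h3
    rw [← zero_div (4 ^ n : ℚ), ← h3, sum_div]
    refine sum_congr rfl fun i hi => ?_
    have h4 := (hmon i hi).1.coeff_natDegree
    rw [(hmon i hi).2] at h4
    rw [coeff_C_mul, h4]
    simp [wt, ω]
  have hFp : ∀ a < k, F.eval (p a) = 0 := fun a ha => by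
    have h3 : ((∑ i ∈ range (n + 1), v i * wt n (a + 1) i : ℤ) : ℚ) = 0 := by
      rw [hw (a + 1) (by omega)]; rfl
    push_cast at h3
    have hL : (LL a : ℚ) ≠ 0 := Nat.cast_ne_zero.mpr (LL_pos a).ne'
    rw [← mul_zero (-2 * (∏ j ∈ range (n + 1), (p a - x j)) / (LL a * 4 ^ n)), ← h3, mul_sum,
      eval_finsetSum]
    refine sum_congr rfl fun i hi => ?_
    have h4 : (2 * (i : ℚ) - 2 * a - 1) * wt n (a + 1) i = LL a * ω i := by
      simp only [ω]
      exact_mod_cast wt_spec n a i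
    rw [eval_mul, eval_C, eval_prod, ← mul_prod_erase _ _ hi]
    simp only [eval_sub, eval_X, eval_C]
    have h5 : p a - x i = -(2 * (i : ℚ) - 2 * a - 1) / 2 := by simp only [x, p]; ring
    rw [h5]
    field_simp
    linear_combination (-(v i : ℚ) * ∏ j ∈ (range (n + 1)).erase i, (p a - x j)) * h4
  let Z := (range n).filter fun l => F.eval (p l) = 0
  let P := (range n).filter fun l => ¬ F.eval (p l) = 0
  have hcard : Z.card + P.card = n := by
    rw [card_filter_add_card_filter_not, card_range]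
  have hkZ : k ≤ Z.card := by
    rw [← card_range k]
    exact card_le_card fun a ha => mem_filter.mpr
      ⟨mem_range.mpr (by have := mem_range.mp ha; omega), hFp a (mem_range.mp ha)⟩
  have hpinj : Function.Injective p := fun a b h => by
    simp only [p] at h
    exact Nat.cast_injective (R := ℚ) (by linarith)
  obtain ⟨F', hF'⟩ : (∏ l ∈ Z, (X - C (p l))) ∣ F :=
    prod_dvd_of_coprime ((pairwise_coprime_X_sub_C hpinj).set_pairwise _) fun l hl =>
      dvd_iff_isRoot.mpr (mem_filter.mp hl).2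
  have hF'0 : F' ≠ 0 := fun h => hF0 (by rw [hF', h, mul_zero])
  have hdeg : F.natDegree = Z.card + F'.natDegree := by
    rw [hF', natDegree_mul (monic_prod_of_monic _ _ fun j _ => monic_X_sub_C _).ne_zero hF'0,
      natDegree_finsetProd_X_sub_C_eq_card]
  have hF'x : ∀ i ≤ n, F'.eval (x i) = v i * ∏ l ∈ P, (x i - p l) := fun i hi => by
    have h2 := hFx i hi
    rw [hF', eval_mul, eval_prod, ← prod_filter_mul_prod_filter_not (range n) fun l => F.eval (p l) = 0] at h2
    simp only [eval_sub, eval_X, eval_C] at h2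
    refine mul_left_cancel₀ (prod_ne_zero_iff.mpr fun l (_ : l ∈ Z) => hxp i l) ?_
    rw [h2]
    ring
  refine ⟨F', P, filter_subset _ _, by omega, ?_, by omega, fun l hl h => ?_, fun i hi => ?_⟩
  · have h2 : ({x 0, x 1} : Finset ℚ).val ⊆ F'.roots := fun y hy => by
      rw [mem_roots hF'0]
      rcases mem_insert.mp (mem_val.mp hy) with rfl | hy
      · rw [IsRoot, hF'x 0 (by omega), h0]; simp
      · rw [mem_singleton.mp hy, IsRoot, hF'x 1 (by omega), h1]; simp
    have h3 := card_le_degree_of_subset_roots h2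
    rwa [card_pair (by simp only [x]; intro h; push_cast at h; linarith)] at h3
  · refine (mem_filter.mp hl).2 ?_
    rw [hF', eval_mul]
    exact mul_eq_zero_of_right _ h
  · have h2 := abs_le.mp (hv i)
    refine ⟨(v i + m).toNat, by omega, ?_⟩
    have h3 : (((v i + m).toNat : ℕ) : ℚ) = v i + m := by
      have : (((v i + m).toNat : ℕ) : ℤ) = v i + m := by omega
      exact_mod_cast this
    rw [h3, add_sub_cancel_right]
    exact hF'x i hi

theorem preperiodic {V : Type} [AddCommGroup V] [Module ℚ V] (f : V → V) (d : ℕ)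
    (hf : ∀ (c : ℚ) (w : V), f (c • w) = c ^ d • f w) (T : Finset V)
    (hT : ∀ w ∈ T, ∃ w' ∈ T, ∃ c : ℚ, c ≠ 0 ∧ f w = c • w') (v : V) (hv : v ∈ T) :
    ∃ m n : ℕ, m < n ∧ ∃ c : ℚ, c ≠ 0 ∧ f^[n] v = c • f^[m] v := by
  have h1 : ∀ n, ∃ w : T, ∃ c : ℚ, c ≠ 0 ∧ f^[n] v = c • w.1 := fun n => by
    induction n with
    | zero => exact ⟨⟨v, hv⟩, 1, one_ne_zero, by simp⟩
    | succ n ih =>
      obtain ⟨w, c, hc, h⟩ := ih
      obtain ⟨w', hw', c', hc', h'⟩ := hT w.1 w.2
      exact ⟨⟨w', hw'⟩, c ^ d * c', mul_ne_zero (pow_ne_zero _ hc) hc', by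
        rw [Function.iterate_succ_apply', h, hf, h', smul_smul]⟩
  choose w c hc h using h1
  obtain ⟨a, b, hab, he⟩ := Finite.exists_ne_map_eq_of_infinite w
  wlog hlt : a < b generalizing a b
  · exact this b a hab.symm he.symm (by omega)
  exact ⟨a, b, hlt, c b / c a, div_ne_zero (hc b) (hc a), by
    rw [h a, h b, he, smul_smul, div_mul_cancel₀ _ (hc a)]⟩

end Pool.Agent.H101Z.Pre
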